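import Pool.Agent.L7h59.NC.Def

/-!
# Project NC, part CSA: simple rings which are finite over their centre
-/

set_option autoImplicit false

open Matrix

namespace Pool.Agent.L7h64.NC

section

variable {R : Type} [Ring R] [IsSimpleRing R]

/-- no nontrivial relation `∑ a_i x e_i = 0` (for all `x`) over linearly independent `e_i` -/
theorem no_relation {X : Type} (e : X → R)
    (he : LinearIndependent (Subring.center R) e) :
    ∀ (n : ℕ) (s : Finset X), s.card = n → ∀ a : X → R,
      (∀ x : R, ∑ i ∈ s, a i * x * e i = 0) → ∀ i ∈ s, a i = 0 := by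
  classical
  intro n
  induction n with
  | zero =>
    intro s hs a _ i hi
    rw [Finset.card_eq_zero] at hs
    rw [hs] at hi
    exact absurd hi (Finset.notMem_empty i)
  | succ n ih =>
    intro s hs a ha i0 hi0
    by_contra hne
    let I : TwoSidedIdeal R := TwoSidedIdeal.mk'
      {y : R | ∃ a : X → R, (∀ x : R, ∑ i ∈ s, a i * x * e i = 0) ∧ a i0 = y}
      ⟨0, fun x => by simp, rfl⟩
      (by
        rintro x y ⟨a, ha, rfl⟩ ⟨b, hb, rfl⟩
        refine ⟨a + b, fun x => ?_, rfl⟩
        simp only [Pi.add_apply, add_mul, Finset.sum_add_distrib]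
        rw [ha x, hb x, add_zero])
      (by
        rintro x ⟨a, ha, rfl⟩
        refine ⟨-a, fun x => ?_, rfl⟩
        simp only [Pi.neg_apply, neg_mul, Finset.sum_neg_distrib]
        rw [ha x, neg_zero])
      (by
        rintro r y ⟨a, ha, rfl⟩
        refine ⟨fun i => r * a i, fun x => ?_, rfl⟩
        have h1 : ∑ i ∈ s, r * a i * x * e i = r * ∑ i ∈ s, a i * x * e i := by
          rw [Finset.mul_sum]
          exact Finset.sum_congr rfl fun i _ => by noncomm_ring
        rw [h1, ha x, mul_zero])
      (by
        rintro y r ⟨a, ha, rfl⟩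
        refine ⟨fun i => a i * r, fun x => ?_, rfl⟩
        have h1 : ∑ i ∈ s, a i * r * x * e i = ∑ i ∈ s, a i * (r * x) * e i :=
          Finset.sum_congr rfl fun i _ => by noncomm_ring
        rw [h1, ha (r * x)])
    have hmem : ∀ y : R, y ∈ I ↔
        ∃ a : X → R, (∀ x : R, ∑ i ∈ s, a i * x * e i = 0) ∧ a i0 = y := fun y =>
      TwoSidedIdeal.mem_mk' _ _ _ _ _ _ y
    have h1 : (1 : R) ∈ I :=
      IsSimpleRing.one_mem_of_ne_zero_mem I hne ((hmem _).2 ⟨a, ha, rfl⟩)
    obtain ⟨b, hb, hb0⟩ := (hmem _).1 h1
    -- the coefficients are central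
    have hcen : ∀ i ∈ s, b i ∈ Subring.center R := by
      intro i hi
      rw [Subring.mem_center_iff]
      intro r
      by_cases hii : i = i0
      · rw [hii, hb0, mul_one, one_mul]
      · have h2 := ih (s.erase i0) (by rw [Finset.card_erase_of_mem hi0, hs]; rfl)
          (fun j => r * b j - b j * r) (by
            intro x
            have h3 : ∑ j ∈ s, (r * b j - b j * r) * x * e j = 0 := by
              have h4 : ∑ j ∈ s, (r * b j - b j * r) * x * e j =
                  r * ∑ j ∈ s, b j * x * e j - ∑ j ∈ s, b j * (r * x) * e j := by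
                rw [Finset.mul_sum, ← Finset.sum_sub_distrib]
                exact Finset.sum_congr rfl fun j _ => by noncomm_ring
              rw [h4, hb x, hb (r * x), mul_zero, sub_zero]
            rw [← Finset.add_sum_erase s _ hi0] at h3
            simp only [hb0, mul_one, one_mul, sub_self, zero_mul, zero_add] at h3
            exact h3)
          i (Finset.mem_erase.2 ⟨hii, hi⟩)
        exact sub_eq_zero.1 h2
    -- linear independence
    have h5 := hb 1
    simp only [mul_one] at h5
    have h6 := linearIndependent_iff'.1 he s
      (fun i => if h : b i ∈ Subring.center R then ⟨b i, h⟩ else 0) (by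
        rw [← h5]
        refine Finset.sum_congr rfl fun i hi => ?_
        rw [dif_pos (hcen i hi), Subring.smul_def, smul_eq_mul]) i0 hi0
    rw [dif_pos (hcen i0 hi0)] at h6
    have h7 := congrArg (fun z : Subring.center R => (z : R)) h6
    simp only [hb0] at h7
    exact one_ne_zero h7

end

theorem csa : ∀ (R : Type) [Ring R] [IsSimpleRing R] [Module.Finite (Subring.center R) R],
  ∃ (X : Type) (_ : Fintype X) (_ : DecidableEq X) (_ : Nonempty X)
    (θ : R →+* Matrix X X (Subring.center R)) (u v : Matrix X X R),
    u * v = 1 ∧ v * u = 1 ∧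
      ∀ r : R, (θ r).map (Subring.center R).subtype = u * Matrix.scalar X r * v := by
  classical
  intro R _ _ _
  have hfree : Module.Free (Subring.center R) R := by
    let F : Field (Subring.center R) := (IsSimpleRing.isField_center R).toField
    exact @Module.Free.of_divisionRing (Subring.center R) R F.toDivisionRing _ (inferInstance)
  have hart : IsArtinianRing (Subring.center R) := by
    let F : Field (Subring.center R) := (IsSimpleRing.isField_center R).toField
    exact (inferInstance : @IsArtinianRing (Subring.center R) F.toDivisionRing.toRing.toSemiring)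
  have hartR : IsArtinianRing R := IsArtinianRing.of_finite (Subring.center R) R
  let e := Module.Free.chooseBasis (Subring.center R) R
  let X := Module.Free.ChooseBasisIndex (Subring.center R) R
  have hX : Nonempty X := e.index_nonempty
  let w : Matrix X X R := fun k j => e j * e k
  have hinj : Function.Injective (Matrix.vecMulLinear w) := by
    rw [← LinearMap.ker_eq_bot, LinearMap.ker_eq_bot']
    intro a ha
    have h1 : ∀ j, ∑ k, a k * (e j * e k) = 0 := fun j => by
      have h0 := congrFun ha j
      rw [Matrix.vecMulLinear_apply] at h0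
      exact h0
    have h2 : ∀ x : R, ∑ k, a k * x * e k = 0 := by
      intro x
      have h3 : x = ∑ j, e.repr x j • e j := (e.sum_repr x).symm
      have h4 : ∑ k, a k * x * e k = ∑ j, e.repr x j • ∑ k, a k * (e j * e k) := by
        conv_lhs => rw [h3]
        simp only [Finset.mul_sum, Finset.sum_mul, Finset.smul_sum]
        rw [Finset.sum_comm]
        refine Finset.sum_congr rfl fun j _ => Finset.sum_congr rfl fun k _ => ?_
        rw [mul_smul_comm, smul_mul_assoc, mul_assoc]
      rw [h4]
      simp [h1]
    funext i
    exact no_relation e e.linearIndependent _ Finset.univ rfl a h2 i (Finset.mem_univ i)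
  have hsurj : Function.Surjective (Matrix.vecMulLinear w) :=
    IsArtinian.surjective_of_injective_endomorphism _ hinj
  choose u hu using fun i : X => hsurj (Pi.single i 1)
  have huw : (Matrix.of u) * w = 1 := by
    ext i j
    have h0 := congrFun (hu i) j
    rw [Matrix.vecMulLinear_apply] at h0
    have h1 : (Matrix.of u * w) i j = (Pi.single i 1 : X → R) j := h0
    rw [h1]
    by_cases h : i = j
    · subst h
      rw [Pi.single_eq_same, Matrix.one_apply_eq]
    · rw [Pi.single_eq_of_ne (fun h' => h h'.symm), Matrix.one_apply_ne h]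
  have hwu : w * (Matrix.of u) = 1 := by
    have h1 : (w * (Matrix.of u) - 1) * w = 0 := by
      rw [sub_mul, mul_assoc, huw, mul_one, one_mul, sub_self]
    have h2 : ∀ i, (w * (Matrix.of u) - 1) i = 0 := by
      intro i
      apply hinj
      rw [map_zero]
      have := congrFun h1 i
      rw [Matrix.vecMulLinear_apply]
      funext j
      exact congrFun this j
    exact sub_eq_zero.1 (funext h2)
  refine ⟨X, inferInstance, inferInstance, hX, (Algebra.leftMulMatrix e).toRingHom, Matrix.of u, w,
    huw, hwu, fun r => ?_⟩
  -- `r w = w θ(r)`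
  have hkey : Matrix.scalar X r * w =
      w * (Algebra.leftMulMatrix e r).map (Subring.center R).subtype := by
    ext k j
    rw [Matrix.scalar_apply, Matrix.diagonal_mul, Matrix.mul_apply]
    have h1 : r * e j = ∑ i, e.repr (r * e j) i • e i := (e.sum_repr _).symm
    have h2 : r * (e j * e k) = ∑ i, e.repr (r * e j) i • (e i * e k) := by
      rw [← mul_assoc]
      conv_lhs => rw [h1]
      rw [Finset.sum_mul]
      exact Finset.sum_congr rfl fun i _ => smul_mul_assoc _ _ _
    refine h2.trans (Finset.sum_congr rfl fun i _ => ?_)
    rw [Matrix.map_apply, Algebra.leftMulMatrix_eq_repr_mul, Subring.smul_def, smul_eq_mul]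
    exact (Subring.mem_center_iff.1 (e.repr (r * e j) i).2 (e i * e k)).symm
  calc ((Algebra.leftMulMatrix e).toRingHom r).map (Subring.center R).subtype
      = 1 * (Algebra.leftMulMatrix e r).map (Subring.center R).subtype := (one_mul _).symm
    _ = Matrix.of u * (w * (Algebra.leftMulMatrix e r).map (Subring.center R).subtype) := by
        rw [← huw, mul_assoc]
    _ = Matrix.of u * Matrix.scalar X r * w := by rw [← hkey, mul_assoc]

theorem s_CSA : Pool.Agent.L7h59.NC.S_CSA := csa

end Pool.Agent.L7h64.NC
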